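import Mathlib

/-!
Helper file for MP_5bb9a7_nt: the affine maps of a prime chain, nested returns, complexity.
-/

set_option autoImplicit false

namespace Pool.Agent.PCM

open Filter Topology

/-- prime chain, indexed from `0` -/
def PrimeChain (q : ℕ → ℕ) : Prop :=
  StrictMono q ∧ ∀ k, (q k).Prime ∧ q (k + 1) ≡ 1 [MOD q k]

/-- `a` is the sequence of multipliers of `q` -/
def Multipliers (q a : ℕ → ℕ) : Prop := ∀ k, q (k + 1) = a k * q k + 1

/-- the words of length `n` which occur in the sequence `a` -/
def words (a : ℕ → ℕ) (n : ℕ) : Set (Fin n → ℕ) := Set.range fun k => fun i : Fin n => a (k + i)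

/-! ### the affine maps -/

/-- the composition of the first `n` maps `x ↦ b k * x + 1` modulo `l` -/
def g (l : ℕ) (b : ℕ → ℕ) : ℕ → ZMod l → ZMod l
  | 0, x => x
  | n + 1, x => (b n : ZMod l) * g l b n x + 1

theorem g_add (l : ℕ) (b : ℕ → ℕ) (m M : ℕ) (h : ∀ i < M, b (m + i) ≡ b i [MOD l])
    (x : ZMod l) : g l b (m + M) x = g l b M (g l b m x) := by
  induction M with
  | zero => rfl
  | succ M ih =>
    have h1 := ih (fun i hi => h i (by omega))
    have h2 : ((b (m + M) : ℕ) : ZMod l) = b M :=
      (ZMod.natCast_eq_natCast_iff _ _ _).2 (h M (by omega))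
    change (b (m + M) : ZMod l) * g l b (m + M) x + 1 = (b M : ZMod l) * g l b M (g l b m x) + 1
    rw [h1, h2]

theorem g_inj {l : ℕ} [Fact l.Prime] (b : ℕ → ℕ) (n : ℕ) (h : ∀ k < n, ¬ l ∣ b k) :
    Function.Injective (g l b n) := by
  induction n with
  | zero => exact fun x y h => h
  | succ n ih =>
    intro x y hxy
    have h1 := ih (fun k hk => h k (by omega))
    have h2 : (b n : ZMod l) ≠ 0 := by
      intro h0
      exact h n (by omega) ((ZMod.natCast_eq_zero_iff _ _).1 h0)
    have h3 : (b n : ZMod l) * g l b n x + 1 = (b n : ZMod l) * g l b n y + 1 := hxy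
    exact h1 (mul_left_cancel₀ h2 (add_right_cancel h3))

theorem g_chain {l : ℕ} (q a : ℕ → ℕ) (hm : Multipliers q a) (j : ℕ) (hj : l = q j) (n : ℕ) :
    g l (fun k => a (j + k)) n 0 = (q (j + n) : ZMod l) := by
  induction n with
  | zero =>
    subst hj
    change (0 : ZMod (q j)) = (q (j + 0) : ZMod (q j))
    simp
  | succ n ih =>
    change (a (j + n) : ZMod l) * g l (fun k => a (j + k)) n 0 + 1 = _
    rw [ih, ← add_assoc, hm (j + n)]
    push_cast
    rfl

/-- nested returns -/
theorem nested (q a : ℕ → ℕ) (hq : PrimeChain q) (hm : Multipliers q a) (j : ℕ) (m : ℕ → ℕ)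
    (hm1 : ∀ r, 1 ≤ m r)
    (hret : ∀ r < q j, ∀ i < ∑ s ∈ Finset.range r, m s,
      a (j + (m r + i)) ≡ a (j + i) [MOD q j]) :
    ∃ k, j ≤ k ∧ k < j + ∑ s ∈ Finset.range (q j), m s ∧ q j ∣ a k := by
  by_contra hcon
  push Not at hcon
  have : Fact (q j).Prime := ⟨(hq.2 j).1⟩
  set l := q j with hl
  set b : ℕ → ℕ := fun k => a (j + k) with hb
  set S : ℕ → ℕ := fun r => ∑ s ∈ Finset.range r, m s with hS
  have hSs : ∀ r, S (r + 1) = S r + m r := fun r => Finset.sum_range_succ _ _
  have hSm : StrictMono S := strictMono_nat_of_lt_succ (fun r => by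
    rw [hSs]; have := hm1 r; omega)
  have hinj : ∀ n, n ≤ S l → Function.Injective (g l b n) := by
    intro n hn
    refine g_inj b n (fun k hk hd => ?_)
    exact hcon (j + k) (by omega) (by
      change j + k < j + S l
      omega) hd
  have hcomp : ∀ s, s ≤ l → ∀ r, r ≤ s → ∀ x, g l b (S s) x = g l b (S r) (g l b (S s - S r) x) := by
    intro s
    induction s with
    | zero =>
      intro _ r hr x
      have : r = 0 := by omega
      subst this
      simp [g]
    | succ s ih =>
      intro hs r hr x
      rcases Nat.lt_or_ge s r with h | h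
      · have : r = s + 1 := by omega
        subst this
        simp [g]
      · have h1 : g l b (S (s + 1)) x = g l b (S s) (g l b (m s) x) := by
          rw [hSs, add_comm]
          exact g_add l b (m s) (S s) (fun i hi => hret s (by omega) i hi) x
        have hle : S r ≤ S s := hSm.monotone h
        have h2 : g l b (m s + (S s - S r)) x = g l b (S s - S r) (g l b (m s) x) :=
          g_add l b (m s) (S s - S r) (fun i hi => hret s (by omega) i (by
            change i < S s
            omega)) x
        have h3 : S (s + 1) - S r = m s + (S s - S r) := by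
          rw [hSs]; omega
        rw [h1, ih (by omega) r h, h3, h2]
  have hcard : Fintype.card (ZMod l) < Fintype.card (Fin (l + 1)) := by
    rw [ZMod.card, Fintype.card_fin]; omega
  obtain ⟨r, s, hrs, heq⟩ := Fintype.exists_ne_map_eq_of_card_lt
    (fun r : Fin (l + 1) => g l b (S r) 0) hcard
  have key : ∀ r s : ℕ, r < s → s ≤ l → g l b (S r) 0 = g l b (S s) 0 → False := by
    intro r s hrs hs heq
    have h1 := hcomp s hs r hrs.le 0
    have h2 : (0 : ZMod l) = g l b (S s - S r) 0 :=
      hinj (S r) (hSm.monotone (by omega)) (heq.trans h1)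
    have hlt : S r < S s := hSm hrs
    rw [hb, g_chain q a hm j hl] at h2
    have h3 : l ∣ q (j + (S s - S r)) := (ZMod.natCast_eq_zero_iff _ _).1 h2.symm
    have h4 : l = q (j + (S s - S r)) := (Nat.prime_dvd_prime_iff_eq (hq.2 j).1 (hq.2 _).1).1 h3
    have h5 : q j < q (j + (S s - S r)) := hq.1 (by omega)
    omega
  rcases lt_or_gt_of_ne (fun h => hrs (Fin.ext h) : (r : ℕ) ≠ s) with h | h
  · exact key r s h (by omega) heq
  · exact key s r h (by omega) heq.symm

/-- non-recurrence modulo `q j` -/
theorem not_recurrent_mod (q a : ℕ → ℕ) (hq : PrimeChain q) (hm : Multipliers q a) (j : ℕ)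
    (hd : ∀ k, j ≤ k → ¬ q j ∣ a k) :
    ∃ M, ∀ m, 1 ≤ m → ∃ i < M, ¬ a (j + (m + i)) ≡ a (j + i) [MOD q j] := by
  by_contra hcon
  push Not at hcon
  choose μ hμ1 hμ using hcon
  let S : ℕ → ℕ := fun r => Nat.rec 0 (fun _ s => s + μ s) r
  have hS : ∀ r, ∑ s ∈ Finset.range r, μ (S s) = S r := by
    intro r
    induction r with
    | zero => rfl
    | succ r ih => rw [Finset.sum_range_succ, ih]
  obtain ⟨k, hk, -, hdk⟩ := nested q a hq hm j (fun r => μ (S r)) (fun r => hμ1 _)
    (fun r _ i hi => hμ (S r) i (by rw [hS] at hi; exact hi))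
  exact hd k hk hdk

theorem le_q (q : ℕ → ℕ) (hq : PrimeChain q) (j : ℕ) : j < q j := by
  induction j with
  | zero => exact (hq.2 0).1.pos
  | succ j ih => exact lt_of_le_of_lt ih (hq.1 (Nat.lt_succ_self j))

theorem a_pos (q a : ℕ → ℕ) (hq : PrimeChain q) (hm : Multipliers q a) (k : ℕ) : 0 < a k := by
  rcases Nat.eq_zero_or_pos (a k) with h | h
  · have h1 := hm k
    rw [h] at h1
    have h2 := (hq.2 (k + 1)).1.two_le
    omega
  · exact h

/-- bounded multipliers: no tail is recurrent -/
theorem not_recurrent (q a : ℕ → ℕ) (hq : PrimeChain q) (hm : Multipliers q a) (B : ℕ)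
    (hB : ∀ k, a k ≤ B) (j : ℕ) :
    ∃ M, ∀ m, 1 ≤ m → ∃ i < M, a (j + (m + i)) ≠ a (j + i) := by
  by_contra hcon
  push Not at hcon
  obtain ⟨M, hM⟩ := not_recurrent_mod q a hq hm (j + B) (fun k _ hd => by
    have h1 := Nat.le_of_dvd (a_pos q a hq hm k) hd
    have h2 := le_q q hq (j + B)
    have h3 := hB k
    omega)
  obtain ⟨m, hm1, hmi⟩ := hcon (B + M)
  obtain ⟨i, hi, hne⟩ := hM m hm1
  apply hne
  have h1 := hmi (B + i) (by omega)
  have h2 : j + B + (m + i) = j + (m + (B + i)) := by ring
  have h3 : j + B + i = j + (B + i) := by ring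
  rw [h2, h3, h1]

/-! ### complexity -/

theorem words_finite (a : ℕ → ℕ) (B : ℕ) (hB : ∀ k, a k ≤ B) (n : ℕ) : (words a n).Finite := by
  refine Set.Finite.subset (Set.Finite.pi' (fun _ : Fin n => Set.finite_Iic B)) ?_
  rintro w ⟨k, rfl⟩ i
  exact hB _

/-- Morse-Hedlund -/
theorem complexity_tail (b : ℕ → ℕ) (B : ℕ) (hB : ∀ k, b k ≤ B)
    (hper : ∀ k p, 1 ≤ p → ¬ ∀ i, b (k + p + i) = b (k + i)) (n : ℕ) :
    n + 1 ≤ (words b n).ncard := by
  induction n with
  | zero =>
    have : (words b 0).Nonempty := ⟨_, 0, rfl⟩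
    have := (Set.ncard_pos (words_finite b B hB 0)).2 this
    omega
  | succ n ih =>
    have hf := words_finite b B hB
    let ρ : (Fin (n + 1) → ℕ) → (Fin n → ℕ) := fun w i => w i.castSucc
    have himg : ρ '' words b (n + 1) = words b n := by
      ext w
      constructor
      · rintro ⟨v, ⟨k, rfl⟩, rfl⟩
        exact ⟨k, rfl⟩
      · rintro ⟨k, rfl⟩
        exact ⟨_, ⟨k, rfl⟩, rfl⟩
    have hle : (words b n).ncard ≤ (words b (n + 1)).ncard := by
      rw [← himg]
      exact Set.ncard_image_le (hf (n + 1))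
    rcases Nat.lt_or_ge (words b n).ncard (words b (n + 1)).ncard with h | h
    · omega
    · exfalso
      have hinj : Set.InjOn ρ (words b (n + 1)) := by
        apply Set.injOn_of_ncard_image_eq
        · rw [himg]; omega
        · exact hf (n + 1)
      -- two positions with the same word of length `n`
      obtain ⟨k, k', hkk, hw⟩ : ∃ k k', k < k' ∧
          (fun i : Fin n => b (k + i)) = fun i : Fin n => b (k' + i) := by
        by_contra hno
        push Not at hno
        have : Function.Injective (fun k => fun i : Fin n => b (k + i)) := by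
          intro k k' h
          by_contra hne
          rcases lt_or_gt_of_ne hne with h1 | h1
          · exact hno k k' h1 h
          · exact hno k' k h1 h.symm
        exact (Set.infinite_range_of_injective this) (hf n)
      have hstep : ∀ t, (fun i : Fin n => b (k + t + i)) = fun i : Fin n => b (k' + t + i) := by
        intro t
        induction t with
        | zero => exact hw
        | succ t iht =>
          have h1 : (fun i : Fin (n + 1) => b (k + t + i)) = fun i : Fin (n + 1) => b (k' + t + i) :=
            hinj ⟨k + t, rfl⟩ ⟨k' + t, rfl⟩ iht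
          funext i
          have h2 := congrFun h1 i.succ
          simp only [Fin.val_succ] at h2
          have h3 : k + (t + 1) + (i : ℕ) = k + t + (i + 1) := by ring
          have h4 : k' + (t + 1) + (i : ℕ) = k' + t + (i + 1) := by ring
          rw [h3, h4]
          exact h2
      have hnext : ∀ t, b (k + t) = b (k' + t) := by
        intro t
        have h1 : (fun i : Fin (n + 1) => b (k + t + i)) = fun i : Fin (n + 1) => b (k' + t + i) :=
          hinj ⟨k + t, rfl⟩ ⟨k' + t, rfl⟩ (hstep t)
        have h2 := congrFun h1 0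
        simpa using h2
      refine hper k (k' - k) (by omega) (fun i => ?_)
      have h1 : k + (k' - k) + i = k' + i := by omega
      rw [h1, hnext i]

theorem complexity (q a : ℕ → ℕ) (hq : PrimeChain q) (hm : Multipliers q a) (B : ℕ)
    (hB : ∀ k, a k ≤ B) (C : ℕ) : ∃ N, ∀ n, N ≤ n → n + C ≤ (words a n).ncard := by
  choose M hM using not_recurrent q a hq hm B hB
  refine ⟨∑ j ∈ Finset.range C, M j, fun n hn => ?_⟩
  have hMn : ∀ j < C, M j ≤ n := fun j hj =>
    (Finset.single_le_sum (f := M) (fun _ _ => Nat.zero_le _) (Finset.mem_range.2 hj)).trans hn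
  have htail : n + 1 ≤ (words (fun i => a (C + i)) n).ncard := by
    refine complexity_tail _ B (fun k => hB _) (fun k p hp hall => ?_) n
    obtain ⟨i, -, hi⟩ := hM (C + k) p hp
    apply hi
    have h1 := hall i
    have h2 : C + k + (p + i) = C + (k + p + i) := by ring
    have h3 : C + k + i = C + (k + i) := by ring
    rw [h2, h3]
    exact h1
  have hfin := words_finite a B hB n
  let W : ℕ → (Fin n → ℕ) := fun k i => a (k + i)
  have hWne : ∀ j < C, ∀ k, j < k → W k ≠ W j := by
    intro j hj k hjk heq
    obtain ⟨i, hi, hne⟩ := hM j (k - j) (by omega)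
    apply hne
    have h1 := congrFun heq ⟨i, lt_of_lt_of_le hi (hMn j hj)⟩
    have h2 : j + (k - j + i) = k + i := by omega
    rw [h2]
    exact h1
  have hinj : Set.InjOn W (Set.Iio C) := by
    intro j hj k hk h
    by_contra hne
    rcases lt_or_gt_of_ne hne with h1 | h1
    · exact hWne j hj k h1 h.symm
    · exact hWne k hk j h1 h
  have hdisj : Disjoint (W '' Set.Iio C) (words (fun i => a (C + i)) n) := by
    rw [Set.disjoint_left]
    rintro w ⟨j, hj, rfl⟩ ⟨k, hk⟩
    have hj' : j < C := hj
    refine hWne j hj (C + k) (by omega) ?_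
    funext i
    have h1 := congrFun hk i
    have h2 : C + k + (i : ℕ) = C + (k + i) := by ring
    change a (C + k + i) = W j i
    rw [h2]
    exact h1
  have hsub : W '' Set.Iio C ∪ words (fun i => a (C + i)) n ⊆ words a n := by
    rintro w (⟨j, -, rfl⟩ | ⟨k, rfl⟩)
    · exact ⟨j, rfl⟩
    · refine ⟨C + k, ?_⟩
      funext i
      have h2 : C + k + (i : ℕ) = C + (k + i) := by ring
      change a (C + k + i) = _
      rw [h2]
  have hfin2 : (words (fun i => a (C + i)) n).Finite := hfin.subset
    (Set.subset_union_right.trans hsub)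
  have hfin1 : (W '' Set.Iio C).Finite := (Set.finite_Iio C).image W
  have h1 := Set.ncard_le_ncard hsub hfin
  rw [Set.ncard_union_eq hdisj hfin1 hfin2, hinj.ncard_image] at h1
  have h2 : (Set.Iio C).ncard = C := by
    rw [← Finset.coe_Iio, Set.ncard_coe_finset, Nat.card_Iio]
  omega

end Pool.Agent.PCM
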