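import Pool.Agent.PCM.Basic

/-!
Helper file for MP_5bb9a7_nt: stationary multipliers.
-/

set_option autoImplicit false

namespace Pool.Agent.PCM

open Filter Topology MeasureTheory

section mass

variable {l : ℕ} [NeZero l]

/-- the sequences which do not start with a multiple of `l` and whose state `x` modulo `l` moves in
one step into the family `S` -/
def pre (l : ℕ) (S : ZMod l → Set (ℕ → ℕ)) (x : ZMod l) : Set (ℕ → ℕ) :=
  {a | ¬ l ∣ a 0 ∧ (fun k => a (k + 1)) ∈ S ((a 0 : ZMod l) * x + 1)}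

/-- remove the state `0` -/
def rem (l : ℕ) (S : ZMod l → Set (ℕ → ℕ)) (x : ZMod l) : Set (ℕ → ℕ) :=
  {a | x ≠ 0 ∧ a ∈ S x}

theorem measurable_shift : Measurable (fun (a : ℕ → ℕ) k => a (k + 1)) :=
  measurable_pi_lambda _ (fun k => measurable_pi_apply (k + 1))

theorem measurableSet_zero (P : ℕ → Prop) : MeasurableSet {a : ℕ → ℕ | P (a 0)} :=
  (measurable_pi_apply (X := fun _ : ℕ => ℕ) 0) (MeasurableSet.of_discrete (s := {n | P n}))

theorem measurableSet_pre (S : ZMod l → Set (ℕ → ℕ)) (hS : ∀ x, MeasurableSet (S x))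
    (x : ZMod l) : MeasurableSet (pre l S x) := by
  have : pre l S x = ⋃ c : ZMod l, ({a : ℕ → ℕ | ¬ l ∣ a 0 ∧ (a 0 : ZMod l) = c} ∩
      (fun (a : ℕ → ℕ) k => a (k + 1)) ⁻¹' S (c * x + 1)) := by
    ext a
    simp only [pre, Set.mem_ofPred_eq, Set.mem_iUnion, Set.mem_inter_iff, Set.mem_preimage]
    constructor
    · rintro ⟨h1, h2⟩
      exact ⟨_, ⟨h1, rfl⟩, h2⟩
    · rintro ⟨c, ⟨h1, rfl⟩, h2⟩
      exact ⟨h1, h2⟩
  rw [this]
  refine MeasurableSet.iUnion (fun c => ?_)
  exact (measurableSet_zero fun n => ¬ l ∣ n ∧ (n : ZMod l) = c).inter (measurable_shift (hS _))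

omit [NeZero l] in
theorem measurableSet_rem (S : ZMod l → Set (ℕ → ℕ)) (hS : ∀ x, MeasurableSet (S x))
    (x : ZMod l) : MeasurableSet (rem l S x) := by
  by_cases h : x = 0
  · have : rem l S x = ∅ := by
      ext a
      simp [rem, h]
    rw [this]
    exact MeasurableSet.empty
  · have : rem l S x = S x := by
      ext a
      simp [rem, h]
    rw [this]
    exact hS x

theorem sum_rem (μ : Measure (ℕ → ℕ)) (S : ZMod l → Set (ℕ → ℕ)) :
    ∑ x, μ (S x) = μ (S 0) + ∑ x, μ (rem l S x) := by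
  have h1 : ∀ x : ZMod l, μ (rem l S x) = if x = 0 then 0 else μ (S x) := by
    intro x
    by_cases h : x = 0
    · have : rem l S x = ∅ := by
        ext a
        simp [rem, h]
      rw [this]
      simp [h]
    · have : rem l S x = S x := by
        ext a
        simp [rem, h]
      rw [this, if_neg h]
  simp only [h1]
  have h2 : ∀ x : ZMod l, μ (S x) = (if x = 0 then μ (S 0) else 0) + if x = 0 then 0 else μ (S x) := by
    intro x
    by_cases h : x = 0
    · simp [h]
    · simp [h]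
  rw [Finset.sum_congr rfl (fun x _ => h2 x), Finset.sum_add_distrib]
  congr 1
  simp

theorem mass_pre [Fact l.Prime] (μ : Measure (ℕ → ℕ))
    (hμ : MeasurePreserving (fun (a : ℕ → ℕ) k => a (k + 1)) μ μ)
    (S : ZMod l → Set (ℕ → ℕ)) (hS : ∀ x, MeasurableSet (S x)) :
    ∑ x, μ (pre l S x) ≤ ∑ x, μ (S x) := by
  have h1 : ∀ x, μ (pre l S x) = ∫⁻ a, (pre l S x).indicator 1 a ∂μ := fun x =>
    (lintegral_indicator_one (measurableSet_pre S hS x)).symm
  have h2 : ∀ x, μ (S x) = ∫⁻ a, (S x).indicator 1 (fun k => a (k + 1)) ∂μ := by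
    intro x
    rw [← hμ.measure_preimage (hS x).nullMeasurableSet,
      ← lintegral_indicator_one (measurable_shift (hS x))]
    rfl
  simp only [h1, h2]
  have h4 := lintegral_finsetSum (μ := μ) Finset.univ
    (f := fun x : ZMod l => (pre l S x).indicator (1 : (ℕ → ℕ) → ENNReal))
    (fun x _ => measurable_one.indicator (measurableSet_pre S hS x))
  have h5 := lintegral_finsetSum (μ := μ) Finset.univ
    (f := fun (x : ZMod l) (a : ℕ → ℕ) =>
      (S x).indicator (1 : (ℕ → ℕ) → ENNReal) (fun k => a (k + 1)))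
    (fun x _ => (measurable_one.indicator (hS x)).comp measurable_shift)
  rw [← h4, ← h5]
  refine lintegral_mono (fun a => ?_)
  by_cases hd : l ∣ a 0
  · have : ∀ x : ZMod l, (pre l S x).indicator (1 : (ℕ → ℕ) → ENNReal) a = 0 := fun x =>
      Set.indicator_of_notMem (fun h => h.1 hd) _
    simp [this]
  · have hbij : Function.Bijective (fun x : ZMod l => (a 0 : ZMod l) * x + 1) := by
      rw [← Finite.injective_iff_bijective]
      intro x y hxy
      have h2 : (a 0 : ZMod l) ≠ 0 := fun h0 => hd ((ZMod.natCast_eq_zero_iff _ _).1 h0)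
      exact mul_left_cancel₀ h2 (add_right_cancel hxy)
    have h3 : ∀ x : ZMod l, (pre l S x).indicator (1 : (ℕ → ℕ) → ENNReal) a =
        (S ((a 0 : ZMod l) * x + 1)).indicator 1 (fun k => a (k + 1)) := by
      intro x
      by_cases h : (fun k => a (k + 1)) ∈ S ((a 0 : ZMod l) * x + 1)
      · rw [Set.indicator_of_mem h, Set.indicator_of_mem (show a ∈ pre l S x from ⟨hd, h⟩)]
        rfl
      · rw [Set.indicator_of_notMem h, Set.indicator_of_notMem (fun h' => h h'.2)]
    rw [Finset.sum_congr rfl (fun x _ => h3 x)]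
    exact le_of_eq (hbij.sum_comp
      (fun y => (S y).indicator (1 : (ℕ → ℕ) → ENNReal) (fun k => a (k + 1))))

/-- the families of sequences and states which do not pass `0` before the time `n`, with start `S` -/
def fam (l : ℕ) (S : ZMod l → Set (ℕ → ℕ)) : ℕ → ZMod l → Set (ℕ → ℕ)
  | 0 => S
  | n + 1 => pre l (rem l (fam l S n))

theorem measurableSet_fam (S : ZMod l → Set (ℕ → ℕ)) (hS : ∀ x, MeasurableSet (S x)) (n : ℕ) :
    ∀ x, MeasurableSet (fam l S n x) := by
  induction n with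
  | zero => exact hS
  | succ n ih => exact measurableSet_pre _ (measurableSet_rem _ ih)

theorem mass_fam [Fact l.Prime] (μ : Measure (ℕ → ℕ))
    (hμ : MeasurePreserving (fun (a : ℕ → ℕ) k => a (k + 1)) μ μ)
    (S : ZMod l → Set (ℕ → ℕ)) (hS : ∀ x, MeasurableSet (S x)) :
    ∑' n, μ (fam l S n 0) ≤ ∑ x, μ (S x) := by
  have key : ∀ n, ∑ i ∈ Finset.range n, μ (fam l S i 0) + ∑ x, μ (fam l S n x) ≤ ∑ x, μ (S x) := by
    intro n
    induction n with
    | zero => simp [fam]
    | succ n ih =>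
      rw [Finset.sum_range_succ, add_assoc]
      refine le_trans ?_ ih
      rw [sum_rem μ (fam l S n)]
      exact add_le_add le_rfl (add_le_add le_rfl
        (mass_pre μ hμ (rem l (fam l S n)) (measurableSet_rem _ (measurableSet_fam S hS n))))
  rw [ENNReal.tsum_eq_iSup_nat]
  exact iSup_le (fun n => le_trans le_self_add (key n))

omit [NeZero l] in
theorem g_shift (b : ℕ → ℕ) (n : ℕ) (x : ZMod l) :
    g l (fun k => b (k + 1)) n ((b 0 : ZMod l) * x + 1) = g l b (n + 1) x := by
  induction n with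
  | zero => rfl
  | succ n ih =>
    change (b (n + 1) : ZMod l) * g l (fun k => b (k + 1)) n ((b 0 : ZMod l) * x + 1) + 1 =
      (b (n + 1) : ZMod l) * g l b (n + 1) x + 1
    rw [ih]

theorem mem_fam (S : ZMod l → Set (ℕ → ℕ)) (n : ℕ) : ∀ (a : ℕ → ℕ) (x : ZMod l),
    (∀ k < n, ¬ l ∣ a k) → (∀ i, 1 ≤ i → i ≤ n → g l a i x ≠ 0) →
    (fun k => a (k + n)) ∈ S (g l a n x) → a ∈ fam l S n x := by
  induction n with
  | zero => exact fun a x _ _ h => h
  | succ n ih =>
    intro a x h1 h2 h3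
    refine ⟨h1 0 (by omega), h2 1 le_rfl (by omega), ?_⟩
    refine ih _ _ (fun k hk => h1 (k + 1) (by omega)) (fun i hi1 hi2 => ?_) ?_
    · rw [g_shift]
      exact h2 (i + 1) (by omega) (by omega)
    · rw [g_shift]
      have : (fun k => a (k + n + 1)) = fun k => a (k + (n + 1)) := rfl
      exact h3

/-- the sequences of non-zero numbers for which the state `0` does not return lie in a measurable
set of small measure -/
theorem bad_small [Fact l.Prime] (μ : Measure (ℕ → ℕ)) [IsFiniteMeasure μ]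
    (hμ : MeasurePreserving (fun (a : ℕ → ℕ) k => a (k + 1)) μ μ) :
    ∃ M : Set (ℕ → ℕ), MeasurableSet M ∧
      {a : ℕ → ℕ | (∀ k, a k ≠ 0) ∧ ∀ n, 1 ≤ n → g l a n 0 ≠ 0} ⊆ M ∧
      μ M ≤ l * μ {a | l ∣ a 0 ∧ a 0 ≠ 0} := by
  let A : ZMod l → Set (ℕ → ℕ) := fun _ => {a | l ∣ a 0 ∧ a 0 ≠ 0}
  let U : ZMod l → Set (ℕ → ℕ) := fun _ => Set.univ
  have hA : ∀ x, MeasurableSet (A x) := fun x => measurableSet_zero fun n => l ∣ n ∧ n ≠ 0
  have hU : ∀ x, MeasurableSet (U x) := fun x => MeasurableSet.univ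
  refine ⟨(⋃ n, fam l A n 0) ∪ ⋂ n, fam l U n 0, ?_, ?_, ?_⟩
  · exact (MeasurableSet.iUnion fun n => measurableSet_fam A hA n 0).union
      (MeasurableSet.iInter fun n => measurableSet_fam U hU n 0)
  · rintro a ⟨h0, h1⟩
    by_cases hd : ∃ n, l ∣ a n
    · left
      classical
      refine Set.mem_iUnion.2 ⟨Nat.find hd, mem_fam A _ a 0 (fun k hk => Nat.find_min hd hk)
        (fun i hi _ => h1 i hi) ⟨?_, ?_⟩⟩
      · have := Nat.find_spec hd
        simpa using this
      · have := h0 (Nat.find hd)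
        simpa using this
    · right
      push Not at hd
      exact Set.mem_iInter.2 (fun n => mem_fam U n a 0 (fun k _ => hd k)
        (fun i hi _ => h1 i hi) trivial)
  · have h1 : μ (⋃ n, fam l A n 0) ≤ l * μ {a | l ∣ a 0 ∧ a 0 ≠ 0} := by
      refine (measure_iUnion_le _).trans ((mass_fam μ hμ A hA).trans (le_of_eq ?_))
      simp [A, ZMod.card]
    have h2 : μ (⋂ n, fam l U n 0) = 0 := by
      have h3 : ∑' n, μ (fam l U n 0) ≠ ⊤ := by
        refine ne_top_of_le_ne_top ?_ (mass_fam μ hμ U hU)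
        exact ENNReal.sum_ne_top.2 (fun x _ => measure_ne_top _ _)
      have h4 := ENNReal.tendsto_atTop_zero_of_tsum_ne_top h3
      have h5 : ∀ n, μ (⋂ n, fam l U n 0) ≤ μ (fam l U n 0) := fun n =>
        measure_mono (Set.iInter_subset _ n)
      exact le_antisymm (ge_of_tendsto' h4 h5) bot_le
    refine (measure_union_le _ _).trans ?_
    rw [h2, add_zero]
    exact h1

end mass

theorem null (μ : Measure (ℕ → ℕ)) [IsFiniteMeasure μ]
    (hμ : MeasurePreserving (fun (a : ℕ → ℕ) k => a (k + 1)) μ μ)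
    (hint : ∫⁻ a, ((∑ p ∈ (a 0).primeFactors, p : ℕ) : ENNReal) ∂μ ≠ ⊤) :
    μ {a | ∃ q, PrimeChain q ∧ Multipliers q a} = 0 := by
  classical
  let f : ℕ → ENNReal := fun l => if l.Prime then l * μ {a | l ∣ a 0 ∧ a 0 ≠ 0} else 0
  have hf : ∑' l, f l ≠ ⊤ := by
    have h1 : ∀ l, f l = ∫⁻ a, (if l ∈ (a 0).primeFactors then (l : ENNReal) else 0) ∂μ := by
      intro l
      by_cases hl : l.Prime
      · have h2 : ∀ a : ℕ → ℕ, (if l ∈ (a 0).primeFactors then (l : ENNReal) else 0) =
            {a : ℕ → ℕ | l ∣ a 0 ∧ a 0 ≠ 0}.indicator (fun _ => (l : ENNReal)) a := by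
          intro a
          by_cases h : l ∣ a 0 ∧ a 0 ≠ 0
          · rw [Set.indicator_of_mem (s := {a : ℕ → ℕ | l ∣ a 0 ∧ a 0 ≠ 0}) h, if_pos (Nat.mem_primeFactors.2 ⟨hl, h.1, h.2⟩)]
          · rw [Set.indicator_of_notMem (s := {a : ℕ → ℕ | l ∣ a 0 ∧ a 0 ≠ 0}) h, if_neg (fun h' => h
              ⟨(Nat.mem_primeFactors.1 h').2.1, (Nat.mem_primeFactors.1 h').2.2⟩)]
        simp only [h2, f, if_pos hl]
        rw [lintegral_indicator_const (measurableSet_zero fun n => l ∣ n ∧ n ≠ 0)]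
      · have h2 : ∀ a : ℕ → ℕ, (if l ∈ (a 0).primeFactors then (l : ENNReal) else 0) = 0 := by
          intro a
          rw [if_neg (fun h' => hl (Nat.mem_primeFactors.1 h').1)]
        simp only [h2, f, if_neg hl]
        simp
    simp only [h1]
    rw [← lintegral_tsum (fun l => Measurable.aemeasurable ?_)]
    · convert hint using 3 with a
      rw [tsum_eq_sum (s := (a 0).primeFactors) (fun l hl => if_neg hl)]
      push_cast
      exact Finset.sum_congr rfl (fun l hl => if_pos hl)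
    · exact (measurable_of_countable (fun n : ℕ => if l ∈ n.primeFactors then (l : ENNReal) else 0)).comp
        (measurable_pi_apply (X := fun _ : ℕ => ℕ) 0)
  have hit : ∀ n (a : ℕ → ℕ), (fun (a : ℕ → ℕ) k => a (k + 1))^[n] a = fun k => a (k + n) := by
    intro n a
    induction n with
    | zero => rfl
    | succ n ih =>
      rw [Function.iterate_succ_apply', ih]
      funext k
      change a (k + 1 + n) = a (k + (n + 1))
      congr 1
      ring
  have hbound : ∀ j, μ {a | ∃ q, PrimeChain q ∧ Multipliers q a} ≤ ∑' k, f (k + j) := by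
    intro j
    have hM : ∀ l : ℕ, l.Prime → ∃ M : Set (ℕ → ℕ), MeasurableSet M ∧
        {a : ℕ → ℕ | (∀ k, a k ≠ 0) ∧ ∀ n, 1 ≤ n → g l a n 0 ≠ 0} ⊆ M ∧
        μ M ≤ l * μ {a | l ∣ a 0 ∧ a 0 ≠ 0} := by
      intro l hl
      have : Fact l.Prime := ⟨hl⟩
      have : NeZero l := ⟨hl.ne_zero⟩
      exact bad_small μ hμ
    choose! M hM1 hM2 hM3 using hM
    let D : ℕ → Set (ℕ → ℕ) := fun k =>
      if (k + j).Prime then ((fun (a : ℕ → ℕ) k => a (k + 1))^[j]) ⁻¹' M (k + j) else ∅
    have hsub : {a | ∃ q, PrimeChain q ∧ Multipliers q a} ⊆ ⋃ k, D k := by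
      rintro a ⟨q, hq, hm⟩
      have hlt := le_q q hq j
      refine Set.mem_iUnion.2 ⟨q j - j, ?_⟩
      have h1 : q j - j + j = q j := by omega
      have h2 : D (q j - j) = ((fun (a : ℕ → ℕ) k => a (k + 1))^[j]) ⁻¹' M (q j) := by
        simp only [D, h1]
        rw [if_pos (hq.2 j).1]
      rw [h2, Set.mem_preimage, hit]
      apply hM2 _ (hq.2 j).1
      refine ⟨fun k => (a_pos q a hq hm _).ne', fun n hn h0 => ?_⟩
      have h3 : (fun k => a (k + j)) = fun k => a (j + k) := by
        funext k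
        rw [add_comm]
      rw [h3, g_chain q a hm j rfl] at h0
      have h4 : q j ∣ q (j + n) := (ZMod.natCast_eq_zero_iff _ _).1 h0
      have h5 : q j = q (j + n) := (Nat.prime_dvd_prime_iff_eq (hq.2 j).1 (hq.2 _).1).1 h4
      have h6 : q j < q (j + n) := hq.1 (by omega)
      omega
    refine (measure_mono hsub).trans ((measure_iUnion_le _).trans (ENNReal.tsum_le_tsum ?_))
    intro k
    by_cases hp : (k + j).Prime
    · simp only [D, f, if_pos hp]
      rw [(hμ.iterate j).measure_preimage (hM1 _ hp).nullMeasurableSet]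
      exact hM3 _ hp
    · simp [D, f, if_neg hp]
  have hlim := ENNReal.tendsto_sum_nat_add f hf
  exact le_antisymm (ge_of_tendsto' hlim hbound) bot_le

theorem sum_primeFactors_le (n : ℕ) : ∑ p ∈ n.primeFactors, p ≤ n := by
  rcases Nat.eq_zero_or_pos n with h | h
  · subst h
    simp
  have key : ∀ s : Finset ℕ, (∀ p ∈ s, 2 ≤ p) →
      ∑ p ∈ s, p ≤ ∏ p ∈ s, p ∧ (s.Nonempty → 2 ≤ ∏ p ∈ s, p) := by
    intro s
    induction s using Finset.induction_on with
    | empty => intro _; simp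
    | insert p s hp ih =>
      intro h
      have h1 := ih (fun r hr => h r (Finset.mem_insert_of_mem hr))
      have h2 := h p (Finset.mem_insert_self p s)
      rw [Finset.sum_insert hp, Finset.prod_insert hp]
      rcases s.eq_empty_or_nonempty with hs | hs
      · subst hs
        simp
        exact h2
      · have h3 := h1.2 hs
        refine ⟨?_, fun _ => by nlinarith⟩
        nlinarith [h1.1]
  refine ((key n.primeFactors (fun p hp => (Nat.prime_of_mem_primeFactors hp).two_le)).1).trans ?_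
  exact Nat.le_of_dvd h (Nat.prod_primeFactors_dvd n)

end Pool.Agent.PCM
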